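import Pool.Agent.Helper12.MA.StC
import Pool.Agent.Helper12.MA.Lib

/-!
# Project MA (MP_d63854_co): module MCC
-/

set_option autoImplicit false

namespace Pool.Agent.Helper31.MA

open Pool.Agent.Helper12.MA
open Pool.Agent.Helper51.AJ (IsMinor Planar Apex ExMinor Con Tch)
open Pool.Agent.Helper12.NK (rst Kc add cnt Pcy IsFace Cof plus)

private lemma cut_ne {V : Type} {G : SimpleGraph V} {z v p q r r' : V} {f1 f3 : Set V} {σ b : V} {X Y : Set V}
    (h : Cut G z v p q r r' f1 f3 σ b X Y) :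
    (∀ t ∈ X, t ≠ v ∧ t ≠ z ∧ t ≠ σ ∧ t ≠ b) ∧ (∀ t ∈ Y, t ≠ v ∧ t ≠ z ∧ t ≠ σ ∧ t ≠ b) ∧ b ≠ z := by
  have hc := h.sep.cov
  have key : ∀ t ∈ X ∪ Y, t ≠ v ∧ t ≠ z ∧ t ≠ σ ∧ t ≠ b := by
    intro t ht
    rw [hc] at ht
    simp only [Set.mem_compl_iff, Set.mem_insert_iff, Set.mem_singleton_iff, not_or] at ht
    exact ht
  refine ⟨fun t ht => key t (Or.inl ht), fun t ht => key t (Or.inr ht), ?_⟩
  intro e
  have h4 := h.sep.card
  subst e
  have e1 : ({v, b, σ, b} : Set V) = {v, b, σ} := by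
    ext a
    simp only [Set.mem_insert_iff, Set.mem_singleton_iff]
    tauto
  rw [e1] at h4
  have h5 := Set.ncard_insert_le v ({b, σ} : Set V)
  have h6 := Set.ncard_insert_le b ({σ} : Set V)
  rw [Set.ncard_singleton] at h6
  omega

theorem hMCC : StHFA → StCLS → StCUA → StGAA → StGAB → StENS → StENT → StMCA → StMCB → StSYM → StMCC := by
  intro hHFA hCLS hCUA hGAA hGAB hENS hENT hMCA hMCB hSYM V _ G z v p q r r' f1 f2 f3 f4 X₀ Y₀ x y E hx3
  have cf := E.cf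
  have hy1 : y ∈ f1 := by
    rcases hMCA V G z v p q r r' f1 f2 f3 f4 X₀ Y₀ x y E with h | h
    · exact absurd h hx3
    · exact h
  obtain ⟨hx1, hx4⟩ := hMCB V G z v p q r r' f1 f2 f3 f4 X₀ Y₀ x y E
  obtain ⟨-, ens2, ens3, ens4⟩ := hENS V G z v p q r r' f1 f2 f3 f4 X₀ Y₀ x y E
  obtain ⟨σX, bX, YX, cX⟩ := E.cX
  obtain ⟨σY, bY, XY, cY⟩ := E.cY
  have hcX := cut_ne cX
  have hcY := cut_ne cY
  have hxz : x ≠ z := (hcX.1 x E.xX).2.1
  have hyz : y ≠ z := (hcY.2.1 y E.yY).2.1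
  have hxy : x ≠ y := by
    intro e
    have h1 : x ∈ XY := (E.mX _ _ _ _ cY).1 E.xX
    have h2 : x ∈ Y₀ := e ▸ E.yY
    exact Set.disjoint_left.1 cY.sep.dis h1 h2
  have hyp : y ≠ p := by
    intro e
    have h2 : p ∈ Y₀ := e ▸ E.yY
    exact Set.disjoint_left.1 cY.sep.dis cY.sep.xL h2
  have hxq : x ≠ q := by
    intro e
    have h2 : q ∈ X₀ := e ▸ E.xX
    exact Set.disjoint_left.1 cX.sep.dis h2 cX.sep.yR
  have hx2 : x ∉ f2 := by
    intro h
    have h1 := (hCUA V G z v p q r r' f1 f2 f3 f4 cf σX bX X₀ YX cX).2.1.1 h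
    rcases h1 with h1 | h1
    · exact hxz h1
    · exact Set.disjoint_left.1 cX.sep.dis E.xX h1
  refine ⟨hy1, hx1, hx2, hx4, ?_, ?_⟩
  · obtain ⟨cls1, cls2, cls3, cls4⟩ := hCLS V G z v p q r r' f1 f2 f3 f4 cf
    rcases cls1 y E.vy hyz with ⟨F, hF⟩ | hTP | hTQ | ⟨t, Γ, hN⟩
    · have hxF : x ∈ F := hF.2 ⟨E.vx, fun h => by
        rcases h with h | h
        · exact hxz h
        · exact hxy h⟩
      obtain ⟨-, -, -, -, hf⟩ := hHFA V G z v p q r r' f1 f2 f3 f4 cf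
      rcases hf F hF.1 with h | h | h
      · rw [h] at hxF
        rcases hxF.1 with h' | h'
        · exact absurd h' hx1
        · exact absurd h' hx2
      · rw [h] at hxF
        rcases hxF.1 with h' | h'
        · exact absurd h' hx3
        · exact absurd h' hx4
      · exact ⟨F, hF, h.1, h.2, hxF⟩
    · exfalso
      apply cls3
      intro a ha
      by_cases hay : a = y
      · right
        rw [hay]
        exact ⟨f1, cf.i1, cf.p1, hy1⟩
      · exact hTP ⟨ha.1, fun h => by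
          rcases h with h | h
          · exact ha.2 h
          · exact hay h⟩
    · exfalso
      have h1 : x ∈ {t | t = q ∨ Cof (dl G p q) {v}ᶜ q t} := hTQ ⟨E.vx, fun h => by
        rcases h with h | h
        · exact hxz h
        · exact hxy h⟩
      rcases h1 with h1 | h1
      · exact hxq h1
      · exact hx3 ((hCUA V G z v p q r r' f1 f2 f3 f4 cf σX bX X₀ YX cX).2.2.2.1.2 x E.xX h1)
    · exfalso
      obtain ⟨hNg, hty, hyΓ, hsub⟩ := hN
      obtain ⟨b, X, Y, hc | hc⟩ := ens4 t Γ hNg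
      · obtain ⟨cfr, -, symN, symC⟩ := hSYM V G z v p q r r' f1 f2 f3 f4 cf
        have hcr := symC t b X Y hc
        have hNr := (symN t Γ hNg).1
        have h2 := (hGAA V G z v q p r' r f3 f4 f1 f2 cfr b t Y X Γ hcr hNr).2.1
        have hxt : x ≠ t := by
          intro e
          exact (ens2 _ _ _ _ hc).1 (Or.inl (e ▸ E.xX))
        have hxΓ : x ∈ Γ := hsub ⟨E.vx, fun h => by
          rcases h with h | h
          · exact hxy h
          · exact hxt h⟩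
        have hxX : x ∈ X := (E.mX _ _ _ _ hc).1 E.xX
        have h3 : x ∈ f3 ∩ X := h2 ▸ ⟨hxΓ, hxX⟩
        exact hx3 h3.1
      · have h2 := (hGAA V G z v p q r r' f1 f2 f3 f4 cf b t X Y Γ hc hNg).2.1
        have hyY : y ∈ Y := (E.mX _ _ _ _ hc).2 E.yY
        have h3 : y ∈ Γ ∩ Y := h2 ▸ ⟨hy1, hyY⟩
        exact hyΓ h3.1
  · intro w hvw hwz hwx hwy
    rcases hENT V G z v p q r r' f1 f2 f3 f4 X₀ Y₀ x y E w hvw hwz hwx hwy with h | h | h | h | h | h | h
    · exact absurd h.2.1 hx1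
    · rcases h.2.2 with h' | h'
      · exact absurd h' hx3
      · exact absurd h' hx4
    · exfalso
      obtain ⟨F, -, hF, -, -, hyF, hall⟩ := h
      have hb := (hall _ _ _ _ cX).2
      have hbq : bX ≠ q := (hcX.2.1 q cX.sep.yR).2.2.2.symm
      have hbs : bX ≠ r' := (hcX.1 r' cX.sX).2.2.2.symm
      exact ens3 y hy1 bX cX.bf hyz hyp E.yr hcX.2.2 hbq hbs (Or.inl (Or.inr E.yY)) ⟨F, hF, hyF, hb⟩
    · exact Or.inl ⟨h.1, h.2.2⟩
    · exact absurd h.2.1 hx3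
    · obtain ⟨t, b, X, Y, Γ, -, -, hx, -⟩ := h
      exact absurd hx hx3
    · right
      obtain ⟨σ, t, X, Y, Γ, hc, hTN, -, hxΓ, -⟩ := h
      have hxX : x ∈ X := (E.mX _ _ _ _ hc).1 E.xX
      exact ⟨σ, t, X, Y, Γ, hc, hTN, hxΓ,
        (hGAB V G z v p q r r' f1 f2 f3 f4 cf σ t X Y Γ hc hTN.1 x hxX).1 hxΓ⟩

end Pool.Agent.Helper31.MA
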